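import Mathlib

set_option autoImplicit false

namespace Pool.Agent.Helper929

open Matrix

/-- Pfaffian of a matrix by expansion along the first row. -/
def pf {R : Type*} [CommRing R] : (n : ℕ) → Matrix (Fin n) (Fin n) R → R
  | 0, _ => 1
  | 1, _ => 0
  | (n + 2), A => ∑ j : Fin (n + 1), (-1) ^ (j : ℕ) * A 0 j.succ *
      pf n (A.submatrix (fun k => (j.succAbove k).succ) (fun k => (j.succAbove k).succ))

section ext

variable {R M : Type*} [CommRing R] [AddCommGroup M] [Module R M]

theorem contract_ιMulti (d : Module.Dual R M) : ∀ (n : ℕ) (v : Fin (n + 1) → M),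
    CliffordAlgebra.contractLeft (Q := (0 : QuadraticForm R M)) d
      (ExteriorAlgebra.ιMulti R (n + 1) v) =
      ∑ j : Fin (n + 1), ((-1 : R) ^ (j : ℕ) * d (v j)) •
        ExteriorAlgebra.ιMulti R n (fun k => v (j.succAbove k)) := by
  intro n
  induction n with
  | zero =>
    intro v
    rw [ExteriorAlgebra.ιMulti_succ_apply]
    simp
    rw [Algebra.algebraMap_eq_smul_one]
  | succ n ih =>
    intro v
    rw [ExteriorAlgebra.ιMulti_succ_apply]
    erw [CliffordAlgebra.contractLeft_ι_mul]
    rw [ih, Fin.sum_univ_succ (f := fun j : Fin (n + 1 + 1) => ((-1 : R) ^ (j : ℕ) * d (v j)) •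
        ExteriorAlgebra.ιMulti R (n + 1) (fun k => v (j.succAbove k)))]
    simp only [Fin.val_zero, pow_zero, one_mul]
    have h0 : (fun k => v ((0 : Fin (n + 2)).succAbove k)) = Matrix.vecTail v := by
      funext k
      simp [Matrix.vecTail]
    rw [h0, sub_eq_add_neg, Finset.mul_sum, ← Finset.sum_neg_distrib]
    congr 1
    apply Finset.sum_congr rfl
    intro j _
    rw [ExteriorAlgebra.ιMulti_succ_apply]
    have h1 : v ((j.succ).succAbove 0) = v 0 := by
      simp
    have h2 : Matrix.vecTail (fun k => v (j.succ.succAbove k)) =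
        fun k => Matrix.vecTail v (j.succAbove k) := by
      funext k
      simp [Matrix.vecTail]
    rw [h1, h2]
    have h3 : Matrix.vecTail v j = v j.succ := rfl
    rw [h3, Fin.val_succ, pow_succ, Algebra.mul_smul_comm, ← neg_smul]
    congr 1
    ring

variable (B : LinearMap.BilinForm R M)

theorem neg_proof (hB : ∀ x, B x x = 0) :
    (-B).toQuadraticMap = (0 : QuadraticForm R M) - 0 := by
  ext x
  simp [hB]

/-- Pfaffian as an alternating map. -/
noncomputable def pfE (hB : ∀ x, B x x = 0) (n : ℕ) : M [⋀^Fin n]→ₗ[R] R :=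
  ((ExteriorAlgebra.algebraMapInv (R := R) (M := M)).toLinearMap ∘ₗ
    (CliffordAlgebra.changeForm (neg_proof B hB))).compAlternatingMap
      (ExteriorAlgebra.ιMulti R n)

theorem pfE_apply (hB : ∀ x, B x x = 0) (n : ℕ) (v : Fin n → M) :
    pfE B hB n v = ExteriorAlgebra.algebraMapInv
      (CliffordAlgebra.changeForm (neg_proof B hB) (ExteriorAlgebra.ιMulti R n v)) := rfl

theorem inv_ι (m : M) :
    ExteriorAlgebra.algebraMapInv (ExteriorAlgebra.ι R m) = 0 := by
  simp [ExteriorAlgebra.algebraMapInv]

theorem pfE_eq (hB : ∀ x, B x x = 0) : ∀ (n : ℕ) (v : Fin n → M),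
    pfE B hB n v = pf n (Matrix.of fun i j => B (v i) (v j))
  | 0, v => by
    rw [pfE_apply, ExteriorAlgebra.ιMulti_zero_apply]
    erw [CliffordAlgebra.changeForm_one]
    simp [pf]
  | 1, v => by
    rw [pfE_apply, ExteriorAlgebra.ιMulti_succ_apply, ExteriorAlgebra.ιMulti_zero_apply, mul_one]
    erw [CliffordAlgebra.changeForm_ι]
    simp only [pf]
    exact inv_ι (v 0)
  | (n + 2), v => by
    rw [pfE_apply, ExteriorAlgebra.ιMulti_succ_apply]
    have h1 : CliffordAlgebra.changeForm (neg_proof B hB)
        (ExteriorAlgebra.ι R (v 0) * ExteriorAlgebra.ιMulti R (n + 1) (Matrix.vecTail v)) =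
        ExteriorAlgebra.ι R (v 0) * CliffordAlgebra.changeForm (neg_proof B hB)
          (ExteriorAlgebra.ιMulti R (n + 1) (Matrix.vecTail v)) -
        CliffordAlgebra.changeForm (neg_proof B hB) (CliffordAlgebra.contractLeft ((-B) (v 0))
          (ExteriorAlgebra.ιMulti R (n + 1) (Matrix.vecTail v))) := by
      rw [CliffordAlgebra.changeForm_contractLeft]
      exact CliffordAlgebra.changeForm_ι_mul _ _ _
    have h2 : ExteriorAlgebra.algebraMapInv (ExteriorAlgebra.ι R (v 0) *
        CliffordAlgebra.changeForm (neg_proof B hB)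
          (ExteriorAlgebra.ιMulti R (n + 1) (Matrix.vecTail v))) = 0 := by
      rw [map_mul, inv_ι, zero_mul]
    rw [h1, map_sub, h2, contract_ιMulti, map_sum, map_sum, zero_sub, ← Finset.sum_neg_distrib]
    simp only [pf]
    apply Finset.sum_congr rfl
    intro j _
    rw [map_smul, map_smul]
    have h3 := pfE_eq hB n (fun k => Matrix.vecTail v (j.succAbove k))
    rw [pfE_apply] at h3
    rw [h3]
    simp only [LinearMap.neg_apply, smul_eq_mul, Matrix.of_apply]
    have h4 : Matrix.vecTail v j = v j.succ := rfl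
    rw [h4]
    have h5 : (Matrix.of fun i k => B (Matrix.vecTail v (j.succAbove i))
        (Matrix.vecTail v (j.succAbove k))) =
        (Matrix.of fun i j => B (v i) (v j)).submatrix (fun k => (j.succAbove k).succ)
          (fun k => (j.succAbove k).succ) := by
      ext a b
      simp [Matrix.vecTail]
    rw [h5]
    ring

end ext

section fld

variable {F : Type*} [Field F] [CharZero F]

theorem toBilin_self {n : ℕ} (A : Matrix (Fin n) (Fin n) F) (hA : ∀ i j, A i j = - A j i)
    (x : Fin n → F) : Matrix.toBilin' A x x = 0 := by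
  have h : Matrix.toBilin' A x x = - Matrix.toBilin' A x x := by
    conv_lhs => rw [Matrix.toBilin'_apply, Finset.sum_comm]
    rw [Matrix.toBilin'_apply, ← Finset.sum_neg_distrib]
    apply Finset.sum_congr rfl
    intro i _
    rw [← Finset.sum_neg_distrib]
    apply Finset.sum_congr rfl
    intro j _
    rw [hA j i]
    ring
  have h2 : (2 : F) * Matrix.toBilin' A x x = 0 := by linear_combination h
  rcases mul_eq_zero.1 h2 with h3 | h3
  · exact absurd h3 two_ne_zero
  · exact h3

theorem pf_gram {n : ℕ} (A : Matrix (Fin n) (Fin n) F) (hA : ∀ i j, A i j = - A j i)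
    (P : Matrix (Fin n) (Fin n) F) : pf n (P * A * Pᵀ) = P.det * pf n A := by
  have h1 := pfE_eq (Matrix.toBilin' A) (toBilin_self A hA) n (fun i => P i)
  have h2 := pfE_eq (Matrix.toBilin' A) (toBilin_self A hA) n
    (fun i => (Pi.basisFun F (Fin n)) i)
  have h3 := (pfE (Matrix.toBilin' A) (toBilin_self A hA) n).eq_smul_basis_det
    (Pi.basisFun F (Fin n))
  have h4 : (Matrix.of fun i j => Matrix.toBilin' A (P i) (P j)) = P * A * Pᵀ := by
    ext i j
    rw [Matrix.of_apply, Matrix.toBilin'_apply, Matrix.mul_apply]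
    simp_rw [Matrix.mul_apply, Matrix.transpose_apply, Finset.sum_mul]
    rw [Finset.sum_comm]
  have h5 : (Matrix.of fun i j => Matrix.toBilin' A ((Pi.basisFun F (Fin n)) i)
      ((Pi.basisFun F (Fin n)) j)) = A := by
    ext i j
    simp [Matrix.toBilin'_single]
  rw [h4] at h1
  rw [h5] at h2
  have h6 : pfE (Matrix.toBilin' A) (toBilin_self A hA) n (fun i => P i) =
      pfE (Matrix.toBilin' A) (toBilin_self A hA) n (fun i => (Pi.basisFun F (Fin n)) i) *
        P.det := by
    conv_lhs => rw [h3]
    rw [AlternatingMap.smul_apply, Pi.basisFun_det_apply, smul_eq_mul]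
    rfl
  rw [← h1, ← h2, h6, mul_comm]

theorem pf_perm {n : ℕ} (A : Matrix (Fin n) (Fin n) F) (hA : ∀ i j, A i j = - A j i)
    (σ : Equiv.Perm (Fin n)) : pf n (A.submatrix σ σ) ^ 2 = pf n A ^ 2 := by
  have h := pf_gram A hA (σ.permMatrix F)
  have h1 : σ.permMatrix F * A * (σ.permMatrix F)ᵀ = A.submatrix σ σ := by
    rw [Matrix.transpose_permMatrix, Equiv.Perm.permMatrix, Equiv.Perm.permMatrix,
      PEquiv.toMatrix_toPEquiv_mul, PEquiv.mul_toMatrix_toPEquiv]
    rfl
  rw [h1] at h
  rw [h, Matrix.det_permutation, mul_pow]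
  have h2 : ((Equiv.Perm.sign σ : ℤ) : F) ^ 2 = 1 := by
    rcases Int.units_eq_one_or (Equiv.Perm.sign σ) with h3 | h3 <;> simp [h3]
  rw [h2, one_mul]

/-- The block elimination step. -/
theorem pf_sq_step {n : ℕ} (A : Matrix (Fin (n + 2)) (Fin (n + 2)) F)
    (hA : ∀ i j, A i j = - A j i) (h01 : A 0 1 ≠ 0)
    (ih : ∀ C : Matrix (Fin n) (Fin n) F, (∀ i j, C i j = - C j i) → pf n C ^ 2 = C.det) :
    pf (n + 2) A ^ 2 = A.det := by
  have hd : ∀ i, A i i = 0 := by
    intro i
    have h1 := hA i i
    have h2 : (2 : F) * A i i = 0 := by linear_combination h1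
    rcases mul_eq_zero.1 h2 with h3 | h3
    · exact absurd h3 two_ne_zero
    · exact h3
  have h10 : A 1 0 = - A 0 1 := hA 1 0
  let N : Matrix (Fin (n + 2)) (Fin (n + 2)) F := Matrix.of fun i j => if 1 < i then
      (if j = 1 then - (A 0 i / A 0 1) else if j = 0 then A 1 i / A 0 1 else 0) else 0
  have hPdet : (1 + N).det = 1 := by
    rw [Matrix.det_of_isLowerTriangular]
    · apply Finset.prod_eq_one
      intro i _
      simp only [N, Matrix.add_apply, Matrix.one_apply_eq, Matrix.of_apply]
      by_cases h2 : 1 < i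
      · have h3 : i ≠ 1 := ne_of_gt h2
        have h4 : i ≠ 0 := by
          intro h
          rw [h] at h2
          exact absurd h2 (Fin.not_lt_zero _)
        simp [h2, h3, h4]
      · simp [h2]
    · intro i j hij
      have hij' : i < j := by simpa using hij
      have h1 : i ≠ j := ne_of_lt hij'
      simp only [N, Matrix.add_apply, Matrix.one_apply_ne h1, Matrix.of_apply, zero_add]
      by_cases h2 : 1 < i
      · have h3 : j ≠ 1 := by
          intro h
          rw [h] at hij'
          exact absurd (lt_trans h2 hij') (lt_irrefl _)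
        have h4 : j ≠ 0 := by
          intro h
          rw [h] at hij'
          exact absurd hij' (Fin.not_lt_zero _)
        simp [h2, h3, h4]
      · simp [h2]
  have hrow : ∀ (k : Fin (n + 2)) (x : Fin (n + 2) → F),
      ∑ j, (1 + N) k j * x j = x k + if 1 < k then
        (- (A 0 k / A 0 1) * x 1 + A 1 k / A 0 1 * x 0) else 0 := by
    intro k x
    simp only [Matrix.add_apply, add_mul, Finset.sum_add_distrib]
    congr 1
    · simp [Matrix.one_apply]
    · by_cases h2 : 1 < k
      · rw [Fin.sum_univ_succ, Fin.sum_univ_succ]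
        have h3 : ∀ i : Fin n, N k i.succ.succ * x i.succ.succ = 0 := by
          intro i
          have h4 : i.succ.succ ≠ (1 : Fin (n + 2)) := by
            intro h
            have := congrArg Fin.val h
            simp at this
          have h5 : i.succ.succ ≠ (0 : Fin (n + 2)) := by
            intro h
            have := congrArg Fin.val h
            simp at this
          simp [N, h4, h5]
        rw [Finset.sum_eq_zero (fun i _ => h3 i)]
        have h6 : (0 : Fin (n + 1)).succ = (1 : Fin (n + 2)) := rfl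
        rw [h6]
        simp [N, h2]
        ring
      · simp [N, h2]
  let A' := (1 + N) * A * (1 + N)ᵀ
  have hA' : ∀ i j, A' i j = - A' j i := by
    intro i j
    have h1 : Aᵀ = - A := by
      ext a b
      rw [Matrix.transpose_apply, Matrix.neg_apply]
      exact hA b a
    have h2 : A'ᵀ = - A' := by
      simp only [A', Matrix.transpose_mul, Matrix.transpose_transpose, h1]
      rw [Matrix.neg_mul, Matrix.mul_neg, Matrix.mul_assoc]
    have h3 := congrFun (congrFun h2 j) i
    rw [Matrix.transpose_apply, Matrix.neg_apply] at h3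
    exact h3
  have hA'e : ∀ i k, A' i k = ∑ j, (1 + N) k j * ((1 + N) * A) i j := by
    intro i k
    simp only [A']
    rw [Matrix.mul_apply]
    apply Finset.sum_congr rfl
    intro j _
    rw [Matrix.transpose_apply, mul_comm]
  have hPA : ∀ i j, ((1 + N) * A) i j = A i j + if 1 < i then
        (- (A 0 i / A 0 1) * A 1 j + A 1 i / A 0 1 * A 0 j) else 0 := by
    intro i j
    rw [Matrix.mul_apply]
    exact hrow i (fun l => A l j)
  have n01 : ¬ (1 : Fin (n + 2)) < 0 := Fin.not_lt_zero _
  have n11 : ¬ (1 : Fin (n + 2)) < 1 := lt_irrefl _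
  have a01 : A' 0 1 = A 0 1 := by
    rw [hA'e, hrow, hPA]
    simp
  have a0k : ∀ k : Fin n, A' 0 k.succ.succ = 0 := by
    intro k
    have hk : (1 : Fin (n + 2)) < k.succ.succ := by
      rw [Fin.lt_def]
      simp
    rw [hA'e, hrow, hPA, hPA, hPA, if_pos hk]
    simp [hd]
    field_simp
    ring
  have a1k : ∀ k : Fin n, A' 1 k.succ.succ = 0 := by
    intro k
    have hk : (1 : Fin (n + 2)) < k.succ.succ := by
      rw [Fin.lt_def]
      simp
    rw [hA'e, hrow, hPA, hPA, hPA, if_pos hk]
    simp [hd, h10]
    field_simp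
    ring
  have hdet : A'.det = A.det := by
    simp only [A']
    rw [Matrix.det_mul, Matrix.det_mul, Matrix.det_transpose, hPdet]
    ring
  have hpf : pf (n + 2) A' = pf (n + 2) A := by
    simp only [A']
    rw [pf_gram A hA, hPdet, one_mul]
  let C : Matrix (Fin n) (Fin n) F := A'.submatrix (fun k => k.succ.succ) (fun k => k.succ.succ)
  have hC : pf n C ^ 2 = C.det := ih C (fun i j => hA' _ _)
  have hpf2 : pf (n + 2) A' = A 0 1 * pf n C := by
    simp only [pf]
    rw [Fin.sum_univ_succ, Finset.sum_eq_zero]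
    · simp [C]
      left
      exact a01
    · intro j _
      rw [a0k j]
      ring
  have a00 : A' 0 0 = 0 := by
    have h1 := hA' 0 0
    have h2 : (2 : F) * A' 0 0 = 0 := by linear_combination h1
    rcases mul_eq_zero.1 h2 with h3 | h3
    · exact absurd h3 two_ne_zero
    · exact h3
  have a10 : A' 1 0 = - A 0 1 := by rw [hA' 1 0, a01]
  have hdet2 : A'.det = A 0 1 ^ 2 * C.det := by
    rw [Matrix.det_succ_row_zero, Fin.sum_univ_succ, Fin.sum_univ_succ, Finset.sum_eq_zero]
    · have h6 : (0 : Fin (n + 1)).succ = (1 : Fin (n + 2)) := rfl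
      rw [h6, a00, a01]
      have h7 : (A'.submatrix Fin.succ (Fin.succAbove (1 : Fin (n + 2)))).det =
          - A 0 1 * C.det := by
        rw [Matrix.det_succ_row_zero, Fin.sum_univ_succ, Finset.sum_eq_zero]
        · have h8 : (A'.submatrix Fin.succ (Fin.succAbove (1 : Fin (n + 2)))) 0 0 = - A 0 1 := by
            rw [← a10]
            rfl
          have h9 : (A'.submatrix Fin.succ (Fin.succAbove (1 : Fin (n + 2)))).submatrix
              Fin.succ (Fin.succAbove 0) = C := by
            ext i j
            rfl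
          rw [h8, h9]
          simp
        · intro j _
          have h8 : (A'.submatrix Fin.succ (Fin.succAbove (1 : Fin (n + 2)))) 0 j.succ = 0 := by
            rw [← a1k j]
            simp
          rw [h8]
          ring
      rw [h7]
      simp
      ring
    · intro j _
      rw [a0k j]
      ring
  rw [← hpf, ← hdet, hpf2, hdet2, mul_pow, hC]

theorem pf_sq : ∀ (n : ℕ) (A : Matrix (Fin n) (Fin n) F) (_ : ∀ i j, A i j = - A j i),
    pf n A ^ 2 = A.det
  | 0, A, _ => by simp [pf]
  | 1, A, hA => by
    have h1 := hA 0 0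
    have h2 : (2 : F) * A 0 0 = 0 := by linear_combination h1
    have h3 : A 0 0 = 0 := by
      rcases mul_eq_zero.1 h2 with h3 | h3
      · exact absurd h3 two_ne_zero
      · exact h3
    simp [pf, h3]
  | (n + 2), A, hA => by
    by_cases h0 : ∀ j, A 0 j = 0
    · rw [Matrix.det_eq_zero_of_row_eq_zero 0 h0]
      simp only [pf]
      rw [Finset.sum_eq_zero]
      · ring
      · intro j _
        rw [h0]
        ring
    · push Not at h0
      obtain ⟨j0, hj0⟩ := h0
      have h00 : A 0 0 = 0 := by
        have h1 := hA 0 0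
        have h2 : (2 : F) * A 0 0 = 0 := by linear_combination h1
        rcases mul_eq_zero.1 h2 with h3 | h3
        · exact absurd h3 two_ne_zero
        · exact h3
      have hj : j0 ≠ 0 := by
        intro h
        rw [h, h00] at hj0
        exact hj0 rfl
      have h01 : (0 : Fin (n + 2)) ≠ 1 := by
        intro h
        have := congrArg Fin.val h
        simp at this
      rw [← pf_perm A hA (Equiv.swap 1 j0), ← Matrix.det_submatrix_equiv_self (Equiv.swap 1 j0) A]
      apply pf_sq_step
      · intro i j
        exact hA _ _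
      · rw [Matrix.submatrix_apply, Equiv.swap_apply_left,
          Equiv.swap_apply_of_ne_of_ne h01 (Ne.symm hj)]
        exact hj0
      · exact fun C hC => pf_sq n C hC

end fld

theorem pf_map {R S : Type*} [CommRing R] [CommRing S] (f : R →+* S) :
    ∀ (n : ℕ) (A : Matrix (Fin n) (Fin n) R), f (pf n A) = pf n (A.map f)
  | 0, A => by simp [pf]
  | 1, A => by simp [pf]
  | (n + 2), A => by
    simp only [pf]
    rw [map_sum]
    apply Finset.sum_congr rfl
    intro j _
    rw [map_mul, map_mul, map_pow, map_neg, map_one, pf_map f n]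
    rfl

theorem pf_sq_int {n : ℕ} (A : Matrix (Fin n) (Fin n) ℤ) (hA : ∀ i j, A i j = - A j i) :
    pf n A ^ 2 = A.det := by
  have h := pf_sq n (A.map (Int.castRingHom ℚ)) (by
    intro i j
    simp only [Matrix.map_apply]
    rw [hA i j]
    simp)
  rw [← pf_map, ← RingHom.map_pow] at h
  have h2 : (A.map (Int.castRingHom ℚ)).det = Int.castRingHom ℚ A.det := by
    rw [RingHom.map_det]
    rfl
  rw [h2] at h
  exact (Int.castRingHom ℚ).injective_int h

end Pool.Agent.Helper929
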